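import Pool.Agent.H43R.Cor
import Pool.Agent.H43R.RegThm

/-!
# The integers are existentially definable from P-recursive sequences

Let `a` be a sequence of rational numbers which satisfies a linear recurrence with polynomial
coefficients, and let either `m |a n| < |a (n + 1)| < m ^ 2 |a n|` for all large `n` (some `m > 1`),
or let `|a n|` or `1 / |a n|` be of regular slow growth (`Slow` below: growth like `n ^ t` with a
rational number `t > 0`, or convergence to a positive limit at the speed `n ^ (-k)`). If `a` is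
not eventually a linear combination of pure powers `λ ^ n`, then the set of the integers is
existentially definable in `(ℚ, +, ·, T)`, where `T` is the set of the values of `a`. In the file
`Pool.Agent.H43R.Cor` this is applied to the central binomial coefficients and to the numbers
`n 2 ^ n`: the set of the integers is Diophantine over `ℚ` if and only if one of these sets is.
-/

set_option autoImplicit false

namespace Pool.Agent.Results.MP_28f2cb_lc.HolonomicSequences

open Polynomial Filter Topology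

/-- `m |a n| < |a (n + 1)| < m ^ 2 |a n|` for all large `n`, for some rational number `m > 1` -/
def Growth (a : ℕ → ℚ) : Prop :=
  ∃ m : ℚ, 1 < m ∧ ∀ᶠ n in atTop, m * |a n| < |a (n + 1)| ∧ |a (n + 1)| < m ^ 2 * |a n|

/-- `f n > 0` for all large `n`, and for some integer `e ≥ 1` the limit of
`n ^ e * (f (n + 1) / f n - 1)` is a positive real number; if `e = 1`, also the limit of
`f n ^ q / n ^ p` is a positive real number for some integers `p > 0`, `q ≥ 0` -/
def Slow (f : ℕ → ℝ) : Prop :=
  (∀ᶠ n in atTop, 0 < f n) ∧ ∃ (e : ℕ) (ρ : ℝ), 1 ≤ e ∧ 0 < ρ ∧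
    Tendsto (fun n : ℕ => (n : ℝ) ^ e * (f (n + 1) / f n - 1)) atTop (𝓝 ρ) ∧
    (e = 1 → ∃ (p q : ℕ) (c : ℝ), 0 < p ∧ 0 < c ∧
      Tendsto (fun n : ℕ => f n ^ q / (n : ℝ) ^ p) atTop (𝓝 c))

/-- `a` satisfies, for all large `n`, a nontrivial linear recurrence the coefficients of which are
polynomials in `n` -/
def PRecursive (a : ℕ → ℚ) : Prop :=
  ∃ (k : ℕ) (p : ℕ → ℚ[X]), (∃ i, i ≤ k ∧ p i ≠ 0) ∧
    ∀ᶠ n : ℕ in atTop, ∑ i ∈ Finset.range (k + 1), (p i).eval (n : ℚ) * a (n + i) = 0

/-- `a` satisfies, for all large `n`, the linear recurrence with constant coefficients the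
characteristic polynomial of which is some squarefree polynomial `g`; equivalently, for all large
`n`, `a n` is a linear combination of the powers `λ ^ n` of finitely many algebraic numbers. -/
def PureExponential (a : ℕ → ℚ) : Prop :=
  ∃ g : ℚ[X], Squarefree g ∧ ∀ᶠ n in atTop, g.sum (fun i c => c * a (n + i)) = 0

/-- the upper Banach density of `S` is at least `α` -/
def Density (α : ℝ) (S : Set ℕ) : Prop :=
  ∀ L : ℕ, ∃ l s : ℕ, L ≤ l ∧ α * l ≤ ({n : ℕ | s ≤ n ∧ n < s + l ∧ n ∈ S}.ncard : ℝ)

/-- the sets of the numbers `a n`, `n ∈ S`, for the sets `S` such that the set of the `n` with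
`n, n + 1, …, n + K ∈ S` is of upper Banach density at least `α` -/
def Values (a : ℕ → ℚ) (K : ℕ) (α : ℝ) (T : Set ℚ) : Prop :=
  ∃ S : Set ℕ, Density α {n : ℕ | ∀ i, i ≤ K → n + i ∈ S} ∧ T = a '' S

/-- The set of the rational numbers with the property `P` is existentially definable in the field
of rational numbers with one more predicate for `T`, and one existential formula does it for all
`T` in the class `𝒯`. -/
def Definable (𝒯 : Set ℚ → Prop) (P : ℚ → Prop) : Prop :=
  ∃ (n : ℕ) (p : MvPolynomial (Fin (n + 1)) ℤ) (S : Finset (Fin (n + 1))),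
    ∀ T : Set ℚ, 𝒯 T → ∀ x : ℚ,
      P x ↔ ∃ y : Fin (n + 1) → ℚ, y 0 = x ∧ MvPolynomial.aeval y p = 0 ∧ ∀ s ∈ S, y s ∈ T

/-- The set of the rational numbers with the property `P` is Diophantine (over `ℚ`). -/
def Diophantine (P : ℚ → Prop) : Prop :=
  ∃ (n : ℕ) (p : MvPolynomial (Fin (n + 1)) ℤ), ∀ x : ℚ,
    P x ↔ ∃ y : Fin n → ℚ, MvPolynomial.aeval (Fin.cons x y : Fin (n + 1) → ℚ) p = 0

lemma notPure {a : ℕ → ℚ} (h : ¬ PureExponential a) :
    ∀ g : ℚ[X], Squarefree g → ¬ H43R.EvAnn g a := by
  intro g hg h'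
  refine h ⟨g, hg, h'.mono fun n hn => ?_⟩
  rw [← H43R.ac_apply]
  exact hn

/-- Let `a` be a P-recursive sequence of rational numbers which is not eventually a combination of
pure powers, and let it be of exponential growth (`m |a n| < |a (n + 1)| < m ^ 2 |a n|` for all
large `n`), or let `|a|` or `1 / |a|` be `Slow`. For some `K` and all `α > 0`: the set of the integers and all recursively enumerable sets are
existentially definable in `(ℚ, +, ·, T)`, by one formula for all sets `T = {a n : n ∈ S}` such that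
the upper Banach density of `{n : n, …, n + K ∈ S}` is at least `α`; hence the set of the integers is
Diophantine over `ℚ` if one of these sets `T` is. -/
theorem result (a : ℕ → ℚ)
    (hg : Growth a ∨ Slow (fun n => |(a n : ℝ)|) ∨ Slow (fun n => |(a n : ℝ)|⁻¹))
    (hp : PRecursive a) (hs : ¬ PureExponential a) :
    ∃ K : ℕ, ∀ α : ℝ, 0 < α →
      Definable (Values a K α) (fun x => ∃ z : ℤ, x = z) ∧
      (∀ W : ℕ → Prop, REPred W →
        Definable (Values a K α) (fun x => ∃ n : ℕ, x = n ∧ W n)) ∧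
      ∀ T, Values a K α T → Diophantine (fun x => x ∈ T) →
        Diophantine (fun x => ∃ z : ℤ, x = z) := by
  obtain ⟨K, hK⟩ : ∃ K : ℕ, ∀ {α : ℝ}, 0 < α → ∀ {P' : (ℕ → ℚ) → Prop},
      (∀ A δ : ℝ, δ < 1 / 2 → TH255.QI.DT (TH255.QI.Qu A δ) (fun _ v => P' v)) →
      TH255.QI.DT (fun T => ∃ S : Set ℕ, H43R.Dns {n : ℕ | ∀ i, i ≤ K → n + i ∈ S} α ∧ T = a '' S)
        (fun _ v => P' v) := by
    rcases hg with ⟨m, hg⟩ | hg
    · exact H43R.dt_hol hp (notPure hs) hg
    · exact H43R.dt_regular hp (notPure hs) hg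
  refine ⟨K, fun α hα => ⟨?_, fun W hW => ?_, fun T hT hd => ?_⟩⟩
  · exact (hK hα (P' := fun v => ∃ z : ℤ, v 0 = z) (fun _ _ h => TH255.QI.dt_int h)).final
  · exact (hK hα (P' := fun v => ∃ n : ℕ, v 0 = n ∧ W n)
      (fun _ _ h => TH255.QI.dt_re h hW)).final
  · exact K9h58.QD.dioph_sub (P := fun x => ∃ z : ℤ, x = z) hT hd
      (hK hα (P' := fun v => ∃ z : ℤ, v 0 = z) (fun _ _ h => TH255.QI.dt_int h))

end Pool.Agent.Results.MP_28f2cb_lc.HolonomicSequences
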