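import Pool.Agent.H43R.Hyp.HL
import Pool.Agent.TH255.QI.Main

/-!
# The integers are existentially definable from hypergeometric sequences

Let `a` be a sequence of rational numbers with `Q(n) a(n + 1) = P(n) a(n) ≠ 0` for all large `n`,
with polynomials `P`, `Q` which are not proportional, for example `n!`, `1 / n!`, `n! / 2 ^ n`,
`binom(2 n, n)`, `binom(2 n, n) / 4 ^ n`, the rising factorials of `1 / 3`, or any nonconstant
rational function of `n`; only the geometric sequences are excluded. Then the set of the integers is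
existentially definable in `(ℚ, +, ·, T)`, where `T` is the set of the values of `a`, or of
sufficiently many of them.

Idea of the proof. We consider elements `a(n_0), …, a(n_K)` of `T` and a rational number `x` with
`a(n_{i+1}) / a(n_i) = P(x + i) / Q(x + i)` for all `i < K`, and show that `n_{i+1} = n_i + 1` for
many `i`; then `P(x + i) / Q(x + i) = P(n_i) / Q(n_i)` for many `i`, which gives `x + i = n_i`.

(1) `|P(n) / Q(n)| → ∞`. If `n_{i+1} - n_i` is at most a small constant times the square root of
`n_i`, the sizes of two consecutive quotients show that `n_{i+1} - n_i = n_{i+2} - n_{i+1} = 1`. If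
all the gaps are larger, let `p` be a prime such that `P` and `Q` are products of linear factors
over the `p`-adic integers: as `P` has more roots than `Q`, the products of `P(j) / Q(j)` over all
these gaps are divisible by `p`, so `P` has too many zeros `x, x + 1, …` modulo `p`.

(2) `|P(n) / Q(n)|` tends to a number `> 1`: the gaps are one by the sizes.

(3) `P(n)² / Q(n)² = 1 + ρ / n ^ e + …`, `ρ > 0`, `e ≥ 1`. Here `n_0` could be a large multiple of
`x`. For `e = 1` we have `a(n)² ~ c n ^ ρ`, where `ρ` is rational, and the inequality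
`a(n_0)² < c' x ^ ρ`, `c' > c` near to `c`, gives `n_0 < (1 + η) x`. For `e ≥ 2` the sequence `a(n)²`
converges, and we use one more element `y` of `T` with `y² ≥ (1 + κ / x ^ (e - 1)) a(n_0)²`: it exists
for `x = n_0` and it implies `n_0 < (1 + η) x`. Then the sizes show that the gaps are one.

The other cases follow by taking inverses.
-/

set_option autoImplicit false

namespace Pool.Agent.Results.MP_28f2cb_lc.HypergeometricSequences

open Polynomial Filter

/-- For all large `n` one has `a n ≠ 0` and `Q(n) a(n + 1) = P(n) a(n)`; the polynomial `Q` is not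
zero. -/
def Hypergeometric (P Q : ℤ[X]) (a : ℕ → ℚ) : Prop :=
  Q ≠ 0 ∧ ∀ᶠ n : ℕ in atTop, a n ≠ 0 ∧
    ((Q.eval (n : ℤ) : ℤ) : ℚ) * a (n + 1) = ((P.eval (n : ℤ) : ℤ) : ℚ) * a n

/-- The quotient of `P` and `Q` is not constant. -/
def NotProportional (P Q : ℤ[X]) : Prop := ∀ c d : ℤ, d ≠ 0 → C d * P ≠ C c * Q

/-- the upper Banach density of `S` is at least `α` -/
def Density (α : ℝ) (S : Set ℕ) : Prop :=
  ∀ L : ℕ, ∃ l s : ℕ, L ≤ l ∧ α * l ≤ ({n : ℕ | s ≤ n ∧ n < s + l ∧ n ∈ S}.ncard : ℝ)

/-- the sets of the numbers `a n`, `n ∈ S`, for the sets `S` such that the set of the `n` with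
`n, n + 1, …, n + K ∈ S` is of upper Banach density at least `α` -/
def Values (a : ℕ → ℚ) (K : ℕ) (α : ℝ) (T : Set ℚ) : Prop :=
  ∃ S : Set ℕ, Density α {n : ℕ | ∀ i, i ≤ K → n + i ∈ S} ∧ T = a '' S

/-- The set of the rational numbers with the property `P` is existentially definable in the field
of rational numbers with one more predicate for `T`, and one existential formula does it for all
`T` in the class `𝒯`. -/
def Definable (𝒯 : Set ℚ → Prop) (P : ℚ → Prop) : Prop :=
  ∃ (n : ℕ) (p : MvPolynomial (Fin (n + 1)) ℤ) (S : Finset (Fin (n + 1))),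
    ∀ T : Set ℚ, 𝒯 T → ∀ x : ℚ,
      P x ↔ ∃ y : Fin (n + 1) → ℚ, y 0 = x ∧ MvPolynomial.aeval y p = 0 ∧ ∀ s ∈ S, y s ∈ T

/-- The set of the rational numbers with the property `P` is Diophantine (over `ℚ`). -/
def Diophantine (P : ℚ → Prop) : Prop :=
  ∃ (n : ℕ) (p : MvPolynomial (Fin (n + 1)) ℤ), ∀ x : ℚ,
    P x ↔ ∃ y : Fin n → ℚ, MvPolynomial.aeval (Fin.cons x y : Fin (n + 1) → ℚ) p = 0

/-- Let `Q(n) a(n + 1) = P(n) a(n) ≠ 0` for all large `n`, where the quotient of the polynomials
`P`, `Q` is not constant. For some `K` and all `α > 0`: the set of the integers and all recursively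
enumerable sets are existentially definable in `(ℚ, +, ·, T)`, by one formula for all sets
`T = {a n : n ∈ S}` such that the upper Banach density of `{n : n, …, n + K ∈ S}` is at least `α`;
hence the set of the integers is Diophantine over `ℚ` if one of these sets `T` is. -/
theorem result (P Q : ℤ[X]) (a : ℕ → ℚ) (ha : Hypergeometric P Q a) (hne : NotProportional P Q) :
    ∃ K : ℕ, ∀ α : ℝ, 0 < α →
      Definable (Values a K α) (fun x => ∃ z : ℤ, x = z) ∧
      (∀ W : ℕ → Prop, REPred W →
        Definable (Values a K α) (fun x => ∃ n : ℕ, x = n ∧ W n)) ∧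
      ∀ T, Values a K α T → Diophantine (fun x => x ∈ T) →
        Diophantine (fun x => ∃ z : ℤ, x = z) := by
  obtain ⟨K, hK⟩ := H43R.dt_hyp_all ha.1 (fun c hc => by
    have hd : ((c.den : ℤ)) ≠ 0 := by exact_mod_cast c.den_nz
    refine hne c.num c.den hd ?_
    apply Polynomial.map_injective (Int.castRingHom ℚ) (Int.castRingHom ℚ).injective_int
    unfold H43R.qp at hc
    rw [Polynomial.map_mul, Polynomial.map_mul, map_C, map_C, hc, ← mul_assoc, ← C_mul]
    congr 2
    have := Rat.mul_den_eq_num c
    rw [mul_comm] at this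
    exact_mod_cast this) ha.2
  refine ⟨K, fun α hα => ⟨?_, fun W hW => ?_, fun T hT hd => ?_⟩⟩
  · exact (hK hα (P' := fun v => ∃ z : ℤ, v 0 = z) (fun _ _ h => TH255.QI.dt_int h)).final
  · exact (hK hα (P' := fun v => ∃ n : ℕ, v 0 = n ∧ W n)
      (fun _ _ h => TH255.QI.dt_re h hW)).final
  · exact K9h58.QD.dioph_sub (P := fun x => ∃ z : ℤ, x = z) hT hd
      (hK hα (P' := fun v => ∃ z : ℤ, v 0 = z) (fun _ _ h => TH255.QI.dt_int h))

end Pool.Agent.Results.MP_28f2cb_lc.HypergeometricSequences
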