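import Pool.Agent.K9h58.QD.Dio

/-!
# The integers are existentially definable from rich sets with small denominators
-/

set_option autoImplicit false

namespace Pool.Agent.Results.MP_28f2cb_lc.RichSets

open MvPolynomial

/-- The denominators of the elements `x` of `T` are at most `exp (A (1 + log max(1, |x|)) ^ δ)`. -/
def SmallDen (A δ : ℝ) (T : Set ℚ) : Prop :=
  ∀ x ∈ T, Real.log x.den ≤ A * (1 + Real.log (max 1 |(x : ℝ)|)) ^ δ

/-- For every `N ≥ N₀` at least `α N` of the integers `m` with `|m| ≤ N` are values of the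
polynomial `G` at elements of `T` of absolute value at most `N ^ c`. -/
def Rich {k : ℕ} (G : MvPolynomial (Fin k) ℤ) (c N₀ : ℕ) (α : ℝ) (T : Set ℚ) : Prop :=
  ∀ N : ℕ, N₀ ≤ N → α * N ≤ ({m : ℤ | |m| ≤ N ∧
    ∃ t : Fin k → ℚ, (∀ i, t i ∈ T ∧ |t i| ≤ (N : ℚ) ^ c) ∧ aeval t G = (m : ℚ)}.ncard : ℝ)

/-- The set of the rational numbers with the property `P` is existentially definable in the field
of rational numbers with one more predicate for `T`, and one existential formula does it for all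
`T` in the class `𝒯`. -/
def Definable (𝒯 : Set ℚ → Prop) (P : ℚ → Prop) : Prop :=
  ∃ (n : ℕ) (p : MvPolynomial (Fin (n + 1)) ℤ) (S : Finset (Fin (n + 1))),
    ∀ T : Set ℚ, 𝒯 T → ∀ x : ℚ,
      P x ↔ ∃ y : Fin (n + 1) → ℚ, y 0 = x ∧ aeval y p = 0 ∧ ∀ s ∈ S, y s ∈ T

/-- The set of the rational numbers with the property `P` is Diophantine (over `ℚ`). -/
def Diophantine (P : ℚ → Prop) : Prop :=
  ∃ (n : ℕ) (p : MvPolynomial (Fin (n + 1)) ℤ), ∀ x : ℚ,
    P x ↔ ∃ y : Fin n → ℚ, aeval (Fin.cons x y : Fin (n + 1) → ℚ) p = 0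

/-- For all `G`, `c`, `N₀`, `α > 0`, `A` and `δ < 1 / 2`: the set of the integers and all
recursively enumerable sets are existentially definable, uniformly, in `(ℚ, +, ·, T)` for all sets
`T` with small denominators which are rich. Hence the set of the integers is Diophantine if and only
if there is a Diophantine set of this kind. -/
theorem result :
    (∀ (k : ℕ) (G : MvPolynomial (Fin k) ℤ) (c N₀ : ℕ) (α A δ : ℝ), 0 < α → δ < 1 / 2 →
      Definable (fun T => SmallDen A δ T ∧ Rich G c N₀ α T) (fun x => ∃ z : ℤ, x = z) ∧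
      ∀ W : ℕ → Prop, REPred W →
        Definable (fun T => SmallDen A δ T ∧ Rich G c N₀ α T) (fun x => ∃ a : ℕ, x = a ∧ W a)) ∧
    (Diophantine (fun x => ∃ z : ℤ, x = z) ↔
      ∃ T : Set ℚ, Diophantine (fun x => x ∈ T) ∧
        ∃ (A δ : ℝ) (k : ℕ) (G : MvPolynomial (Fin k) ℤ) (c N₀ : ℕ) (α : ℝ),
          δ < 1 / 2 ∧ 0 < α ∧ SmallDen A δ T ∧ Rich G c N₀ α T) := by
  refine ⟨fun k G c N₀ α A δ hα hδ => ⟨?_, fun W hW => ?_⟩, ⟨fun h => ?_, ?_⟩⟩
  · exact (K9h58.QD.dt_rich G c N₀ hα hδ (P := fun v => ∃ z : ℤ, v 0 = z)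
      (fun _ _ h => TH255.QI.dt_int h)).final
  · exact (K9h58.QD.dt_rich G c N₀ hα hδ (P := fun v => ∃ a : ℕ, v 0 = a ∧ W a)
      (fun _ _ h => TH255.QI.dt_re h hW)).final
  · exact ⟨K9h58.QD.ZZ, h, 0, 0, 1, X 0, 1, 0, 1, by norm_num, one_pos,
      K9h58.QD.zz_small, K9h58.QD.zz_rich⟩
  · rintro ⟨T, hd, A, δ, k, G, c, N₀, α, hδ, hα, h1, h2⟩
    exact K9h58.QD.dioph_sub (𝒯 := fun T => K9h58.QD.SmallDen A δ T ∧ K9h58.QD.Rich G c N₀ α T)
      ⟨h1, h2⟩ hd (K9h58.QD.dt_rich G c N₀ hα hδ (P := fun v => ∃ z : ℤ, v 0 = z)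
      (fun _ _ h => TH255.QI.dt_int h))

end Pool.Agent.Results.MP_28f2cb_lc.RichSets
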