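import Pool.Agent.H43R.Harm

/-!
# The integers are existentially definable from the harmonic numbers

Let `q` be an odd natural number, `b` a natural number, `s ≥ 1` and `ε` any sequence of signs. The set of
the integers is existentially definable in `(ℚ, +, ·, T)`, where `T` is the set of the sums
`∑_{k = 1}^n ε_k / (q k + b) ^ s`, for instance the set of the harmonic numbers (`q = 1`, `b = 0`,
`s = 1`, `ε = 1`). One existential formula does it for all sequences of signs. If one of these sets is
Diophantine then the set of the integers is Diophantine over `ℚ`.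

Proof. If `u, v, w ∈ T` and `v - u = ± 1 / y ^ s`, `w - v = ± 1 / (y + q) ^ s` with `y > 0` then
`y = q k + b` for an integer `k`: a sum of at least two consecutive terms `± 1 / (q k + b) ^ s` has a
negative 2-adic valuation (only one of the denominators is divisible by the highest power of `2`), so
that otherwise both `y` and `y + q` would be even.
-/

set_option autoImplicit false

namespace Pool.Agent.Results.MP_28f2cb_lc.SignedHarmonicSums

/-- the sum `∑_{k = 1}^n ε_{k-1} / (q k + b) ^ s` -/
def signedSum (ε : ℕ → ℚ) (q b s n : ℕ) : ℚ :=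
  ∑ k ∈ Finset.range n, ε k / ((q : ℚ) * (k + 1) + b) ^ s

/-- the upper Banach density of `S` is at least `α` -/
def Density (α : ℝ) (S : Set ℕ) : Prop :=
  ∀ L : ℕ, ∃ l s : ℕ, L ≤ l ∧ α * l ≤ ({n : ℕ | s ≤ n ∧ n < s + l ∧ n ∈ S}.ncard : ℝ)

/-- the sets of the numbers `signedSum ε q b s n`, `n ∈ S`, for the sequences `ε` of signs and the sets `S`
such that the set of the `n` with `n, n + 1, n + 2 ∈ S` is of upper Banach density at least `α` -/
def Values (q b s : ℕ) (α : ℝ) (T : Set ℚ) : Prop :=
  ∃ ε : ℕ → ℚ, (∀ k, ε k = 1 ∨ ε k = -1) ∧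
    ∃ S : Set ℕ, Density α {n : ℕ | ∀ i, i ≤ 2 → n + i ∈ S} ∧ T = signedSum ε q b s '' S

/-- The set of the rational numbers with the property `P` is existentially definable in the field
of rational numbers with one more predicate for `T`, and one existential formula does it for all
`T` in the class `𝒯`. -/
def Definable (𝒯 : Set ℚ → Prop) (P : ℚ → Prop) : Prop :=
  ∃ (n : ℕ) (p : MvPolynomial (Fin (n + 1)) ℤ) (S : Finset (Fin (n + 1))),
    ∀ T : Set ℚ, 𝒯 T → ∀ x : ℚ,
      P x ↔ ∃ y : Fin (n + 1) → ℚ, y 0 = x ∧ MvPolynomial.aeval y p = 0 ∧ ∀ s ∈ S, y s ∈ T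

/-- The set of the rational numbers with the property `P` is Diophantine (over `ℚ`). -/
def Diophantine (P : ℚ → Prop) : Prop :=
  ∃ (n : ℕ) (p : MvPolynomial (Fin (n + 1)) ℤ), ∀ x : ℚ,
    P x ↔ ∃ y : Fin n → ℚ, MvPolynomial.aeval (Fin.cons x y : Fin (n + 1) → ℚ) p = 0

/-- Let `q` be odd, `s > 0` and `α > 0`. The set of the integers and all recursively enumerable sets of natural
numbers are existentially definable in `(ℚ, +, ·, T)`, by one formula for all sets
`T = {∑_{k = 1}^n ε_k / (q k + b) ^ s : n ∈ S}` such that the `ε_k` are signs and the upper Banach density of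
`{n : n, n + 1, n + 2 ∈ S}` is at least `α`; hence the set of the integers is Diophantine over `ℚ` if one
of these sets `T` is. -/
theorem result (q b s : ℕ) (hq : Odd q) (hs : 0 < s) (α : ℝ) (hα : 0 < α) :
    Definable (Values q b s α) (fun x => ∃ z : ℤ, x = z) ∧
    (∀ W : ℕ → Prop, REPred W →
      Definable (Values q b s α) (fun x => ∃ n : ℕ, x = n ∧ W n)) ∧
    ∀ T, Values q b s α T → Diophantine (fun x => x ∈ T) →
      Diophantine (fun x => ∃ z : ℤ, x = z) := by
  refine ⟨?_, fun W hW => ?_, fun T hT hd => ?_⟩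
  · exact (H43R.Hs.dt_harm hq hs hα (P' := fun v => ∃ z : ℤ, v 0 = z)
      (fun _ _ h => TH255.QI.dt_int h)).final
  · exact (H43R.Hs.dt_harm hq hs hα (P' := fun v => ∃ n : ℕ, v 0 = n ∧ W n)
      (fun _ _ h => TH255.QI.dt_re h hW)).final
  · exact K9h58.QD.dioph_sub (P := fun x => ∃ z : ℤ, x = z) hT hd
      (H43R.Hs.dt_harm hq hs hα (P' := fun v => ∃ z : ℤ, v 0 = z) (fun _ _ h => TH255.QI.dt_int h))

end Pool.Agent.Results.MP_28f2cb_lc.SignedHarmonicSums
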